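import Pool.Agent.P8H81.LP.Stm2

/-!
# Project LPB, package EXM: exponential moments of the walk
-/

set_option autoImplicit false

open Filter Finset

namespace Pool.Agent.P8H4.LPB

open Pool.Agent.P8H81.LP

/-- a coordinate of the end point is a sum over the steps -/
theorem pos_end {N : ℕ} (σ : Fin N → Fin 2 × Bool) (i : Fin 2) :
    ((pos σ N i : ℤ) : ℝ) = ∑ k : Fin N, ((stp (σ k) i : ℤ) : ℝ) := by
  unfold pos
  have h : univ.filter (fun k : Fin N => k.val < N) = univ := by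
    apply Finset.filter_true_of_mem
    intro k _
    exact k.isLt
  rw [h, Finset.sum_apply]
  push_cast
  rfl

/-- the sum over one step -/
theorem one_step (t : ℝ) (i : Fin 2) :
    ∑ e : Fin 2 × Bool, Real.exp (t * ((stp e i : ℤ) : ℝ)) ≤ 4 * Real.exp (t ^ 2 / 2) := by
  have h1 : ∑ e : Fin 2 × Bool, Real.exp (t * ((stp e i : ℤ) : ℝ)) = 2 + 2 * Real.cosh t := by
    rw [Fintype.sum_prod_type]
    simp only [Fin.sum_univ_two, Fintype.sum_bool]
    rw [Real.cosh_eq]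
    fin_cases i <;> simp [stp] <;> ring
  rw [h1]
  have h2 := Real.cosh_le_exp_half_sq t
  have h3 : 1 ≤ Real.exp (t ^ 2 / 2) := Real.one_le_exp (by positivity)
  linarith

/-- the exponential moment of one coordinate -/
theorem ev_exp (N : ℕ) (t : ℝ) (i : Fin 2) :
    EV N (fun σ => Real.exp (t * ((pos σ N i : ℤ) : ℝ))) ≤ Real.exp (t ^ 2 * N / 2) := by
  unfold EV
  have h1 : ∑ σ : Fin N → Fin 2 × Bool, Real.exp (t * ((pos σ N i : ℤ) : ℝ)) =
      (∑ e : Fin 2 × Bool, Real.exp (t * ((stp e i : ℤ) : ℝ))) ^ N := by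
    have h2 : ∀ σ : Fin N → Fin 2 × Bool, Real.exp (t * ((pos σ N i : ℤ) : ℝ)) =
        ∏ k : Fin N, Real.exp (t * ((stp (σ k) i : ℤ) : ℝ)) := by
      intro σ
      rw [pos_end, Finset.mul_sum, Real.exp_sum]
    simp only [h2]
    exact (Fintype.sum_pow (fun e : Fin 2 × Bool => Real.exp (t * ((stp e i : ℤ) : ℝ))) N).symm
  rw [h1]
  have h3 : (∑ e : Fin 2 × Bool, Real.exp (t * ((stp e i : ℤ) : ℝ))) ^ N ≤
      (4 * Real.exp (t ^ 2 / 2)) ^ N :=
    pow_le_pow_left₀ (Finset.sum_nonneg fun _ _ => (Real.exp_pos _).le) (one_step t i) N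
  have h4 : (4 * Real.exp (t ^ 2 / 2)) ^ N = (4 : ℝ) ^ N * Real.exp (t ^ 2 * N / 2) := by
    rw [mul_pow, ← Real.exp_nat_mul]
    congr 2
    ring
  rw [h4] at h3
  calc ((4 : ℝ) ^ N)⁻¹ * (∑ e : Fin 2 × Bool, Real.exp (t * ((stp e i : ℤ) : ℝ))) ^ N
      ≤ ((4 : ℝ) ^ N)⁻¹ * ((4 : ℝ) ^ N * Real.exp (t ^ 2 * N / 2)) :=
        mul_le_mul_of_nonneg_left h3 (by positivity)
    _ = Real.exp (t ^ 2 * N / 2) := by
        rw [← mul_assoc, inv_mul_cancel₀ (by positivity), one_mul]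

theorem exm : S_EXM := by
  refine ⟨2 * Real.exp 8, by positivity, fun N hN => ?_⟩
  have hNr : (0 : ℝ) < N := by exact_mod_cast (by omega : 0 < N)
  have hs : 0 < √(N : ℝ) := Real.sqrt_pos.2 hNr
  have hs2 : √(N : ℝ) ^ 2 = N := Real.sq_sqrt hNr.le
  set t : ℝ := 4 / √(N : ℝ) with ht
  have ht2 : t ^ 2 * N / 2 = 8 := by
    rw [ht, div_pow, hs2]
    field_simp
    norm_num
  have hn2 : (-t) ^ 2 * N / 2 = 8 := by rw [neg_sq]; exact ht2
  have m1 := ev_exp N t 0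
  have m2 := ev_exp N (-t) 0
  have m3 := ev_exp N t 1
  have m4 := ev_exp N (-t) 1
  rw [ht2] at m1 m3
  rw [hn2] at m2 m4
  -- the pointwise inequality
  have key : ∀ x y : ℝ, Real.exp (2 * ((|x| + |y|) / √(N : ℝ))) ≤
      (1 / 2) * (Real.exp (t * x) + Real.exp (-t * x) + (Real.exp (t * y) + Real.exp (-t * y))) := by
    intro x y
    have ab : ∀ z : ℝ, Real.exp (t * |z|) ≤ Real.exp (t * z) + Real.exp (-t * z) := by
      intro z
      rcases abs_cases z with ⟨h, _⟩ | ⟨h, _⟩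
      · rw [h]; have := Real.exp_pos (-t * z); linarith
      · rw [h]
        have := Real.exp_pos (t * z)
        have e : t * -z = -t * z := by ring
        rw [e]; linarith
    have h1 := ab x
    have h2 := ab y
    have e1 : Real.exp (2 * ((|x| + |y|) / √(N : ℝ))) =
        Real.exp (t * |x| / 2) * Real.exp (t * |y| / 2) := by
      rw [← Real.exp_add, ht]
      congr 1
      ring
    have e2 : Real.exp (t * |x|) = Real.exp (t * |x| / 2) ^ 2 := by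
      rw [← Real.exp_nat_mul]; congr 1; push_cast; ring
    have e3 : Real.exp (t * |y|) = Real.exp (t * |y| / 2) ^ 2 := by
      rw [← Real.exp_nat_mul]; congr 1; push_cast; ring
    rw [e1]
    rw [e2] at h1
    rw [e3] at h2
    nlinarith [sq_nonneg (Real.exp (t * |x| / 2) - Real.exp (t * |y| / 2))]
  unfold EV at m1 m2 m3 m4 ⊢
  have hsum : ∑ σ : Fin N → Fin 2 × Bool,
      Real.exp (2 * ((|(pos σ N 0 : ℝ)| + |(pos σ N 1 : ℝ)|) / √(N : ℝ))) ≤
      (1 / 2) * ((∑ σ : Fin N → Fin 2 × Bool, Real.exp (t * ((pos σ N 0 : ℤ) : ℝ))) +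
        (∑ σ : Fin N → Fin 2 × Bool, Real.exp (-t * ((pos σ N 0 : ℤ) : ℝ))) +
        ((∑ σ : Fin N → Fin 2 × Bool, Real.exp (t * ((pos σ N 1 : ℤ) : ℝ))) +
        (∑ σ : Fin N → Fin 2 × Bool, Real.exp (-t * ((pos σ N 1 : ℤ) : ℝ))))) := by
    rw [← Finset.sum_add_distrib, ← Finset.sum_add_distrib, ← Finset.sum_add_distrib,
      Finset.mul_sum]
    exact Finset.sum_le_sum fun σ _ => key _ _
  have h4 : (0 : ℝ) ≤ ((4 : ℝ) ^ N)⁻¹ := by positivity
  have h5 := mul_le_mul_of_nonneg_left hsum h4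
  refine h5.trans ?_
  have e5 : ((4 : ℝ) ^ N)⁻¹ * ((1 / 2) *
      ((∑ σ : Fin N → Fin 2 × Bool, Real.exp (t * ((pos σ N 0 : ℤ) : ℝ))) +
        (∑ σ : Fin N → Fin 2 × Bool, Real.exp (-t * ((pos σ N 0 : ℤ) : ℝ))) +
        ((∑ σ : Fin N → Fin 2 × Bool, Real.exp (t * ((pos σ N 1 : ℤ) : ℝ))) +
        (∑ σ : Fin N → Fin 2 × Bool, Real.exp (-t * ((pos σ N 1 : ℤ) : ℝ)))))) =
      (1 / 2) * ((((4 : ℝ) ^ N)⁻¹ * ∑ σ : Fin N → Fin 2 × Bool,
        Real.exp (t * ((pos σ N 0 : ℤ) : ℝ))) +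
        (((4 : ℝ) ^ N)⁻¹ * ∑ σ : Fin N → Fin 2 × Bool, Real.exp (-t * ((pos σ N 0 : ℤ) : ℝ))) +
        ((((4 : ℝ) ^ N)⁻¹ * ∑ σ : Fin N → Fin 2 × Bool, Real.exp (t * ((pos σ N 1 : ℤ) : ℝ))) +
        (((4 : ℝ) ^ N)⁻¹ * ∑ σ : Fin N → Fin 2 × Bool,
          Real.exp (-t * ((pos σ N 1 : ℤ) : ℝ))))) := by
    ring
  rw [e5]
  linarith

end Pool.Agent.P8H4.LPB
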